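import Pool.Agent.Lib.MP_7cd5bf_an.Build

set_option autoImplicit false

namespace Pool.Agent.Results.MP_7cd5bf_an.NotEquivalent

open Pool.Agent.Lib.MP_7cd5bf_an

/-- Q1 has a negative answer, for every `n ≥ 1`: there are strictly increasing sequences of
positive integers `(i m)`, `(j m)` with `i m < j (m + 1)` and `j m < i (m + 1)` for all `m`, such
that for no `n ≥ 1` the subsequences `(e_(i m))` and `(e_(j m))` of the basis are equivalent. -/
theorem result :
    ∃ i j : ℕ → ℕ, StrictMono i ∧ StrictMono j ∧ 1 ≤ i 0 ∧ 1 ≤ j 0 ∧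
      (∀ m, i m < j (m + 1) ∧ j m < i (m + 1)) ∧ ∀ n : ℕ, 1 ≤ n → ¬ EquivSubseq n i j := by
  refine ⟨ii, jj, ii_strictMono, jj_strictMono, by simp [ii], by simp [jj, bb], fun m =>
    ⟨ii_lt_jj m, (jj_lt_ii m).trans (ii_strictMono (Nat.lt_succ_self m))⟩, fun n hn => ?_⟩
  obtain ⟨k, rfl⟩ : ∃ k, n = k + 1 := ⟨n - 1, by omega⟩
  exact not_equiv k

end Pool.Agent.Results.MP_7cd5bf_an.NotEquivalent
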